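import Pool.Agent.X168.SY.BridgeF

/-!
# Symplectic forms from bounded closed forms on amenable coverings

`X` is a closed manifold with a continuous almost complex structure `J`, and `pr : Z → X` is a
normal covering with amenable deck group `Γ`. Then `J` is tamed by a symplectic form on `X` if and
only if there are a smooth map `f` of `X` to a Euclidean space and a closed two-form `w` on `Z`,
all of whose derivatives are bounded uniformly along the translates by `Γ`, such that the
differential of `f` vanishes on all tangent vectors `v` for which the translates of `w` are not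
uniformly positive on `(v, J v)`, and such that in each fibre of `f` the set of the points over
which `w` is not uniformly taming has small components. Nothing is assumed on the sign of `w` on
the exceptional set.
-/

set_option autoImplicit false

open Set MeasureTheory
open scoped Manifold ContDiff

namespace Pool.Agent.Results.MP_9986fc_gt.AmenableMaps

open Pool.Agent.Y501.SYP Pool.Agent.X168.SY

theorem result (d : ℕ) (Z X : Type) [TopologicalSpace Z] [ChartedSpace (ES d) Z]
    [IsManifold 𝓘(ℝ, ES d) ∞ Z] [TopologicalSpace X] [ChartedSpace (ES d) X]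
    [IsManifold 𝓘(ℝ, ES d) ∞ X] (Γ : Type) [Group Γ] [MulAction Γ Z]
    [CompactSpace X] [T2Space X] (hΓ : Amenable Γ) (pr : Z → X)
    (hpr : NormalCovering (ES d) Γ pr) (J : End (ES d) X) (hJ : IsAlmostComplex J) :
    (∃ σ : Form (ES d) X 2, IsTamingSymplectic σ J) ↔
    ∃ (n : ℕ) (f : X → ES n) (w : Form (ES d) Z 2), ContMDiff 𝓘(ℝ, ES d) 𝓘(ℝ, ES n) ∞ f ∧
      IsSmooth w ∧ IsClosedForm w ∧ BoundedTranslates Γ w ∧ KillsNonpositive Γ pr J w f ∧
      SmallOnFibres Γ pr J w f :=
  amenable_maps hΓ pr hpr J hJ

end Pool.Agent.Results.MP_9986fc_gt.AmenableMaps
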