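import Pool.Agent.X5.SYR.Final

/-!
# Symplectic forms from singular closed forms on coverings which tame `J` on the average

`X` is a closed manifold with a continuous almost complex structure `J`, `K` is a closed subset
whose `(d-1)`-dimensional Hausdorff measure is zero, `pr : Z → X` is a normal covering with deck
group `Γ` and `m` is a right invariant mean on the bounded functions on `Γ`. Let `w` be a two-form
on `Z`, smooth and closed off the preimage of `K`, with translates by `Γ` which are locally
uniformly bounded there with all their derivatives, and bounded near the points of `K` on all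
sheets. Suppose that off `K` the average of the numbers `(γ^* w)(u, J u)` over `Γ` is nonnegative
for all `u`, and that the set of the points of `X` near which the average is not bounded below by
`c |u| ^ 2` off `K` (`c > 0`) has components which are small at all their points. Then `J` is tamed
by a symplectic form on `X`.
-/

set_option autoImplicit false

open Set MeasureTheory
open scoped Manifold ContDiff

namespace Pool.Agent.Results.MP_9986fc_gt.AveragedSingularForms

open Pool.Agent.Y501.SYP Pool.Agent.X5.SYR

theorem result (d : ℕ) (hd : 1 ≤ d) (Z X : Type) [TopologicalSpace Z] [ChartedSpace (ES d) Z]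
    [IsManifold 𝓘(ℝ, ES d) ∞ Z] [TopologicalSpace X] [ChartedSpace (ES d) X]
    [IsManifold 𝓘(ℝ, ES d) ∞ X] [CompactSpace X] [T2Space X]
    (J : End (ES d) X) (hJ : IsAlmostComplex J) (K : Set X) (hK : IsClosed K)
    (hH : ∀ x₀ : X, μH[(d : ℝ) - 1] (chartAt (ES d) x₀ '' (K ∩ (chartAt (ES d) x₀).source)) = 0)
    (Γ : Type) [Group Γ] [MulAction Γ Z] (m : (Γ → ℝ) → ℝ) (hm : IsMean m)
    (pr : Z → X) (hpr : NormalCovering (ES d) Γ pr)
    (w : Form (ES d) Z 2) (hw : ClosedOff w (pr ⁻¹' K))
    (hbt : BoundedTranslatesOff Γ w (pr ⁻¹' K)) (hb : ∀ x ∈ K, BddSheets pr w K x)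
    (hpos : WeaklyTamesOnAverage m pr J w K)
    (hsmall : ∀ x ∈ CritAverage m pr J w K,
      SmallAll J (connectedComponentIn (CritAverage m pr J w K) x) x) :
    ∃ σ : Form (ES d) X 2, IsTamingSymplectic σ J :=
  removableAmenable hd m hm pr hpr J hJ K hK hH w hw hbt hb hpos hsmall

end Pool.Agent.Results.MP_9986fc_gt.AveragedSingularForms
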