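import Pool.Agent.X169.WT.Bri

/-!
# Symplectic forms from continuous one-forms

`X` is a closed manifold with a continuous almost complex structure `J`, `σ` is a smooth closed
two-form, `τ` is a smooth two-form (not necessarily closed) and `α` is a continuous one-form,
which need not be differentiable anywhere. Suppose that `σ + dα` is bounded below by `τ` on the
pairs `(v, J v)` in the sense of distributions, that the differential of a smooth map `f` vanishes
on the vectors `v` with `τ(v, J v) ≤ 0`, and that in each fibre of `f` the components of the set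
of the points at which `τ` does not tame `J` are small. Then there is a smooth one-form `β` such
that `σ + dβ` is a symplectic form taming `J`.
-/

set_option autoImplicit false

open Set
open scoped Manifold ContDiff

namespace Pool.Agent.Results.MP_9986fc_gt.WeakTamingForms

open Pool.Agent.Y501.SYP Pool.Agent.X169.WTP

theorem result (d m : ℕ) (X Y : Type) [TopologicalSpace X] [ChartedSpace (ES d) X]
    [IsManifold 𝓘(ℝ, ES d) ∞ X] [CompactSpace X] [T2Space X]
    [TopologicalSpace Y] [ChartedSpace (ES m) Y] [IsManifold 𝓘(ℝ, ES m) ∞ Y] [T2Space Y]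
    (J : End (ES d) X) (hJ : IsAlmostComplex J)
    (f : X → Y) (hf : ContMDiff 𝓘(ℝ, ES d) 𝓘(ℝ, ES m) ∞ f)
    (σ τ : Form (ES d) X 2) (hσ : IsSmooth σ) (hσc : IsClosedForm σ) (hτ : IsSmooth τ)
    (α : Form (ES d) X 1) (hα : IsContinuousForm α) (hweak : WeaklyAbove σ τ α J)
    (hker : ∀ (x : X) (v : TangentSpace 𝓘(ℝ, ES d) x), qd τ J x v ≤ 0 →
      mfderiv 𝓘(ℝ, ES d) 𝓘(ℝ, ES m) f x v = 0)
    (hsmall : SmallOnFibres τ J f) :
    ∃ (β : Form (ES d) X 1) (η : Form (ES d) X 2), IsSmooth β ∧ IsSmooth η ∧ IsD β η ∧
      IsTamingSymplectic (addF σ η) J :=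
  weakTaming J hJ f hf σ τ hσ hσc hτ α hα hweak hker hsmall

end Pool.Agent.Results.MP_9986fc_gt.WeakTamingForms
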